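import Mathlib
import Pool.Agent.Helper72.ProfiniteFinal

set_option autoImplicit false

namespace Pool.Agent.Results.MP_6bba90_al.LocallyFiniteCentralQuotient

universe u

/-- Let `G` be a profinite group such that any two elements of `G/Z(G)` generate a finite
subgroup. Then every element of the closed commutator subgroup of `G` has finite order. -/
theorem result (G : Type u) [Group G] [TopologicalSpace G] [IsTopologicalGroup G]
    [CompactSpace G] [T2Space G] [TotallyDisconnectedSpace G]
    (h : ∀ x y : G ⧸ Subgroup.center G,
      Finite (Subgroup.closure {x, y} : Subgroup (G ⧸ Subgroup.center G))) :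
    ∀ g ∈ (commutator G).topologicalClosure, IsOfFinOrder g :=
  Pool.Agent.Helper72.Prof.main_locally_finite G h

end Pool.Agent.Results.MP_6bba90_al.LocallyFiniteCentralQuotient
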